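import Pool.Agent.Y464.SP.Sgn

set_option autoImplicit false

/-! Counting numbers with biased symbols, for all cut-offs `y` between powers of `log X`. -/

namespace Pool.Agent.Y464.SP

open Finset Real Filter Pool.Agent.H306R2.RZ Pool.Agent.W57.SW Pool.Agent.TH725.TS

/-- largeness conditions -/
lemma large (A' k C ε : ℝ) (hε : 0 < ε) : ∃ L0 : ℝ, 3 ≤ L0 ∧ ∀ L : ℝ, L0 ≤ L →
    k ≤ log L ∧ A' * log L ≤ ε * L ∧ C ≤ ε * L := by
  have h1 : ∀ᶠ L : ℝ in atTop, k ≤ log L := tendsto_log_atTop.eventually_ge_atTop k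
  have h3 : ∀ᶠ L : ℝ in atTop, C ≤ ε * L :=
    (tendsto_id.const_mul_atTop hε).eventually_ge_atTop C
  have h2 : ∀ᶠ L : ℝ in atTop, A' * log L ≤ ε * L := by
    have h4 := Real.isLittleO_log_id_atTop.bound (show 0 < ε / (|A'| + 1) by positivity)
    filter_upwards [h4, eventually_ge_atTop 1] with L hL hL1
    rw [norm_eq_abs, norm_eq_abs, id, abs_of_nonneg (log_nonneg hL1), abs_of_pos (show (0 : ℝ) < L by linarith)] at hL
    have h5 : A' * log L ≤ (|A'| + 1) * log L :=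
      mul_le_mul_of_nonneg_right (by linarith [le_abs_self A']) (log_nonneg hL1)
    have h6 : (|A'| + 1) * log L ≤ (|A'| + 1) * (ε / (|A'| + 1) * L) :=
      mul_le_mul_of_nonneg_left hL (by positivity)
    have h7 : (|A'| + 1) * (ε / (|A'| + 1) * L) = ε * L := by field_simp
    linarith
  obtain ⟨L0, hL0⟩ := eventually_atTop.1 (h1.and (h2.and h3))
  exact ⟨max L0 3, le_max_right _ _, fun L hL => hL0 L ((le_max_left _ _).trans hL)⟩

theorem cnt (ρ c A A' δ η ε : ℝ) (hρ1 : ρ ≤ 1) (hc : 0 < c) (hη : 0 ≤ η) (hρ : 0 < ρ - 2 * η)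
    (hA : 2 ≤ (ρ - 2 * η) * A) (hAA : A ≤ A') (hδ : 0 < δ) (hδ1 : δ ≤ 1) (hε : 0 < ε) :
    ∃ L0 : ℝ, 3 ≤ L0 ∧ ∀ (σ : ℤ) (B : Finset ℕ) (y S X : ℕ) (T : ℝ), (σ = 1 ∨ σ = -1) → (∀ p ∈ B, p.Prime) →
      (∀ p ∈ B, p ≤ y) → L0 ≤ log X → (log X) ^ A / 2 ≤ y → (y : ℝ) ≤ (log X) ^ A' →
      c * (y : ℝ) ^ ρ / log y ≤ T → B.card ≤ T → δ * (y : ℝ) ^ (-η) * T ≤ S →
      ((Exs σ B S X).card : ℝ) ≤ (X : ℝ) ^ (1 - (ρ - 2 * η - 1 / A) + ε) := by
  have hA2 : 2 ≤ A := by nlinarith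
  have hA0 : 0 < A := by linarith
  have hA'0 : 0 < A' := by linarith
  obtain ⟨κ, hκ⟩ : ∃ κ, κ = ρ - 2 * η - 1 / A := ⟨_, rfl⟩
  have hκ0 : 0 ≤ κ := by
    rw [hκ, sub_nonneg, div_le_iff₀ hA0]; linarith
  have hκ1 : κ ≤ 1 := by
    have : 0 < 1 / A := by positivity
    linarith
  obtain ⟨ε1, hε1⟩ : ∃ ε1, ε1 = ε / 4 := ⟨_, rfl⟩
  have hε1p : 0 < ε1 := by rw [hε1]; positivity
  obtain ⟨C, hC, hE⟩ := exs_bound ε1 hε1p
  obtain ⟨c5, hc5⟩ : ∃ c5 : ℝ, c5 = max (8 / (δ ^ 2 * c)) 1 := ⟨_, rfl⟩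
  have hc51 : 1 ≤ c5 := by rw [hc5]; exact le_max_right _ _
  have hc52 : 8 / (δ ^ 2 * c) ≤ c5 := by rw [hc5]; exact le_max_left _ _
  obtain ⟨L0, hL03, hL0⟩ := large A' (max (16 * A' / (c * δ ^ 2)) (log c5 / ε1)) (log C) ε1 hε1p
  refine ⟨L0, hL03, ?_⟩
  intro σ B y S X T hσ hBp hBy hLX hy1 hy2 hT1 hBT hST
  obtain ⟨L, hL⟩ : ∃ L : ℝ, L = log X := ⟨_, rfl⟩
  rw [← hL] at hLX hy1 hy2
  have h3 : 3 ≤ L := hL03.trans hLX
  have hLpos : 0 < L := by linarith
  obtain ⟨k1, k2, k3⟩ := hL0 L hLX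
  have k1a := (le_max_left _ _).trans k1
  have k1b := (le_max_right _ _).trans k1
  have hlogL : 1 ≤ log L := by
    rw [le_log_iff_exp_le hLpos]; linarith [exp_one_lt_d9]
  have hXpos : (0 : ℝ) < X := by
    by_contra h
    have h0 : (X : ℝ) = 0 := le_antisymm (not_lt.mp h) (Nat.cast_nonneg _)
    rw [h0, log_zero] at hL
    linarith
  have hX1 : 1 ≤ X := by exact_mod_cast (show (0 : ℝ) < X from hXpos)
  -- y is large
  have hLA : L ^ (2 : ℝ) ≤ L ^ A := rpow_le_rpow_of_exponent_le (by linarith) hA2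
  have hLA' : L ^ (2 : ℝ) = L * L := by rw [rpow_two, sq]
  have hyL : L ≤ y := by
    have g1 : 3 * L ≤ L * L := mul_le_mul_of_nonneg_right h3 hLpos.le
    rw [hLA'] at hLA
    linarith
  have hy3 : (3 : ℝ) ≤ y := by linarith
  have hy3' : 3 ≤ y := by exact_mod_cast hy3
  have hypos : (0 : ℝ) < y := by linarith
  have hlogy : log L ≤ log y := log_le_log hLpos hyL
  have hlogy1 : 1 ≤ log y := hlogL.trans hlogy
  have hlogy2 : log y ≤ A' * log L := by
    have := log_le_log hypos hy2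
    rwa [log_rpow hLpos] at this
  -- u
  obtain ⟨u, hu⟩ : ∃ u, u = Nat.log y X := ⟨_, rfl⟩
  have e1 : y ^ u ≤ X := by rw [hu]; exact Nat.pow_log_le_self _ (by omega)
  have e2 : X < y ^ (u + 1) := by rw [hu]; exact Nat.lt_pow_succ_log_self (by omega) X
  have e3 : (u : ℝ) * log y ≤ L := by
    have h : ((y ^ u : ℕ) : ℝ) ≤ X := by exact_mod_cast e1
    push_cast at h
    have h' := log_le_log (by positivity) h
    rwa [log_pow, ← hL] at h'
  have hu0 : (0 : ℝ) ≤ u := Nat.cast_nonneg u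
  have e4 : (u : ℝ) * log L ≤ L := (mul_le_mul_of_nonneg_left hlogy hu0).trans e3
  -- the size of the powers of `y`
  obtain ⟨w, hw⟩ : ∃ w : ℝ, w = (y : ℝ) ^ (-η) := ⟨_, rfl⟩
  have hw0 : 0 < w := by rw [hw]; positivity
  have hw1 : w ≤ 1 := by
    rw [hw]
    exact rpow_le_one_of_one_le_of_nonpos (by linarith) (by linarith)
  rw [← hw] at hST
  have hyw : (y : ℝ) ^ ρ * w ^ 2 = (y : ℝ) ^ (ρ - 2 * η) := by
    rw [hw, ← rpow_natCast, ← rpow_mul hypos.le, ← rpow_add hypos]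
    congr 1
    push_cast
    ring
  have hlogy0 : 0 < log (y : ℝ) := by linarith
  have hTpos : 0 < T := lt_of_lt_of_le (by positivity) hT1
  -- lower bound for `w ^ 2 T`
  have hS3 : c / (2 * A') * L ^ (2 : ℝ) / log L ≤ w ^ 2 * T := by
    have g0 : c * (y : ℝ) ^ (ρ - 2 * η) / log y ≤ w ^ 2 * T := by
      rw [← hyw]
      have := mul_le_mul_of_nonneg_left hT1 (show 0 ≤ w ^ 2 by positivity)
      refine le_trans (le_of_eq ?_) this
      ring
    refine le_trans ?_ g0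
    have g1 : L ^ (2 : ℝ) / 2 ≤ (y : ℝ) ^ (ρ - 2 * η) := by
      have g2 : (L ^ A / 2) ^ (ρ - 2 * η) ≤ (y : ℝ) ^ (ρ - 2 * η) := rpow_le_rpow (by positivity) hy1 hρ.le
      refine le_trans ?_ g2
      rw [div_rpow (by positivity) (by norm_num), ← rpow_mul hLpos.le]
      have g3 : (2 : ℝ) ^ (ρ - 2 * η) ≤ 2 := by
        have := rpow_le_rpow_of_exponent_le (by norm_num : (1 : ℝ) ≤ 2) (show ρ - 2 * η ≤ 1 by linarith)
        rwa [rpow_one] at this
      have g4 : L ^ (2 : ℝ) ≤ L ^ (A * (ρ - 2 * η)) :=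
        rpow_le_rpow_of_exponent_le (by linarith) (by linarith)
      have g5 : (0 : ℝ) < 2 ^ (ρ - 2 * η) := by positivity
      calc L ^ (2 : ℝ) / 2 ≤ L ^ (A * (ρ - 2 * η)) / 2 := by linarith
        _ ≤ L ^ (A * (ρ - 2 * η)) / 2 ^ (ρ - 2 * η) := div_le_div_of_nonneg_left (by positivity) g5 g3
    calc c / (2 * A') * L ^ (2 : ℝ) / log L = c * (L ^ (2 : ℝ) / 2) / (A' * log L) := by
          field_simp
      _ ≤ c * (y : ℝ) ^ (ρ - 2 * η) / (A' * log L) := by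
          apply div_le_div_of_nonneg_right _ (by positivity)
          exact mul_le_mul_of_nonneg_left g1 hc.le
      _ ≤ c * (y : ℝ) ^ (ρ - 2 * η) / log y := div_le_div_of_nonneg_left (by positivity) hlogy0 hlogy2
  -- (a)
  have ha : 8 * (u : ℝ) ^ 2 ≤ δ ^ 2 * (w ^ 2 * T) := by
    have g1 : (u : ℝ) ^ 2 * (log L) ^ 2 ≤ L * L := by
      have := mul_le_mul e4 e4 (by positivity) hLpos.le
      calc (u : ℝ) ^ 2 * (log L) ^ 2 = ((u : ℝ) * log L) * (u * log L) := by ring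
        _ ≤ L * L := this
    have g2 : 8 * (u : ℝ) ^ 2 * log L * log L ≤ δ ^ 2 * (w ^ 2 * T) * log L * log L := by
      have g3 : c / (2 * A') * (L * L) ≤ (w ^ 2 * T) * log L := by
        rw [hLA', div_le_iff₀ (by linarith)] at hS3
        exact hS3
      have g4 : 16 * A' / (c * δ ^ 2) ≤ log L := k1a
      rw [div_le_iff₀ (by positivity)] at g4
      have g5 : 8 * (L * L) ≤ δ ^ 2 * (c / (2 * A') * (L * L)) * log L := by
        have : δ ^ 2 * (c / (2 * A') * (L * L)) * log L = (log L * (c * δ ^ 2)) / (2 * A') * (L * L) := by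
          field_simp
        rw [this]
        have g6 : 8 ≤ (log L * (c * δ ^ 2)) / (2 * A') := by
          rw [le_div_iff₀ (by positivity)]; linarith
        exact mul_le_mul_of_nonneg_right g6 (by positivity)
      calc 8 * (u : ℝ) ^ 2 * log L * log L = 8 * ((u : ℝ) ^ 2 * (log L) ^ 2) := by ring
        _ ≤ 8 * (L * L) := by linarith
        _ ≤ δ ^ 2 * (c / (2 * A') * (L * L)) * log L := g5
        _ ≤ δ ^ 2 * ((w ^ 2 * T) * log L) * log L := by
            apply mul_le_mul_of_nonneg_right _ (by linarith)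
            exact mul_le_mul_of_nonneg_left g3 (by positivity)
        _ = _ := by ring
    have g7 : 0 < log L := by linarith
    exact le_of_mul_le_mul_right (le_of_mul_le_mul_right g2 g7) g7
  -- the case of a small set
  rcases lt_or_ge B.card S with hBS | hBS
  · have h0 : Exs σ B S X = ∅ := by
      apply eq_empty_of_forall_notMem
      intro m hm
      have := (mem_Exs.mp hm).2.2.2
      have h5 := card_filter_le B (fun ℓ : ℕ => jacobiSym (ℓ : ℤ) m = σ)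
      omega
    rw [h0, card_empty]
    push_cast
    positivity
  have hBSr : (S : ℝ) ≤ B.card := by exact_mod_cast hBS
  have hSpos : (0 : ℝ) < S := lt_of_lt_of_le (by positivity) hST
  have hN0 : (0 : ℝ) < B.card := by linarith
  have hN1 : 1 ≤ B.card := by exact_mod_cast (show (0 : ℝ) < B.card from hN0)
  have huu : (u : ℝ) ≤ (u : ℝ) ^ 2 := by
    have : u ≤ u ^ 2 := by nlinarith [Nat.zero_le u]
    exact_mod_cast this
  have hδw : δ * w ≤ 1 := mul_le_one₀ hδ1 hw0.le hw1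
  have huS' : (2 : ℝ) * u ≤ S := by
    have g1 : δ ^ 2 * (w ^ 2 * T) ≤ δ * w * T := by
      have : (δ * w) * (δ * w * T) ≤ 1 * (δ * w * T) :=
        mul_le_mul_of_nonneg_right hδw (by positivity)
      refine le_trans (le_of_eq ?_) (this.trans (le_of_eq ?_)) <;> ring
    have g2 : (0 : ℝ) ≤ (u : ℝ) ^ 2 := by positivity
    linarith
  have huS : 2 * u ≤ S := by exact_mod_cast huS'
  -- `S ^ 2` against `T`
  have hSS : δ ^ 2 * (w ^ 2 * T) * T ≤ S * S := by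
    have := mul_le_mul hST hST (by positivity) hSpos.le
    refine le_trans (le_of_eq ?_) this
    ring
  have hcond : 2 * B.card * u ^ 2 ≤ (S - u) ^ 2 := by
    have g1 : (2 : ℝ) * B.card * (u : ℝ) ^ 2 ≤ ((S : ℝ) - u) ^ 2 := by
      have f1 : (S : ℝ) / 2 ≤ (S : ℝ) - u := by linarith
      have f2 : ((S : ℝ) / 2) ^ 2 ≤ ((S : ℝ) - u) ^ 2 := pow_le_pow_left₀ (by positivity) f1 2
      refine le_trans ?_ f2
      have f3 : 8 * (u : ℝ) ^ 2 * B.card ≤ δ ^ 2 * (w ^ 2 * T) * T :=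
        mul_le_mul ha hBT hN0.le (by positivity)
      have f6 : (2 : ℝ) * B.card * (u : ℝ) ^ 2 = (8 * (u : ℝ) ^ 2 * B.card) / 4 := by ring
      have f7 : ((S : ℝ) / 2) ^ 2 = (S * S) / 4 := by ring
      rw [f6, f7]
      linarith
    have g2 : ((2 * B.card * u ^ 2 : ℕ) : ℝ) ≤ (((S - u) ^ 2 : ℕ) : ℝ) := by
      push_cast
      rw [Nat.cast_sub (by omega)]
      exact g1
    exact_mod_cast g2
  have h1 := hE σ B y u S X hσ hBp hBy e1 hX1 (by omega) hcond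
  obtain ⟨q, hq⟩ : ∃ q : ℝ, q = S / B.card := ⟨_, rfl⟩
  have hq0 : 0 < q := by rw [hq]; positivity
  have hqB : q * B.card ≤ S := by rw [hq, div_mul_cancel₀ _ hN0.ne']
  have h2 := choose_ratio hq0 hN1 hqB huS
  have hSu : (0 : ℝ) < (S.choose u : ℝ) ^ 2 := by
    have : 0 < S.choose u := Nat.choose_pos (by omega)
    positivity
  -- the ratio
  have hr : (4 / q ^ 2 * u / B.card : ℝ) ^ u ≤ (X : ℝ) ^ (-κ + 2 * ε1) := by
    have g1 : (4 / q ^ 2 * u / B.card : ℝ) ≤ c5 * (y : ℝ) ^ (-κ) := by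
      have g2 : (4 / q ^ 2 * u / B.card : ℝ) = 4 * u * B.card / (S * S) := by
        rw [hq]; field_simp
      have g3 : 4 * u * B.card / (S * S) ≤ 4 * u * T / (δ ^ 2 * (w ^ 2 * T) * T) := by
        apply div_le_div₀ (by positivity) _ (by positivity) hSS
        exact mul_le_mul_of_nonneg_left hBT (by positivity)
      have g3' : 4 * u * T / (δ ^ 2 * (w ^ 2 * T) * T) = 4 * u / (δ ^ 2 * w ^ 2) / T := by
        field_simp
      have g3'' : 4 * u / (δ ^ 2 * w ^ 2) / T ≤ 4 * u / (δ ^ 2 * w ^ 2) / (c * (y : ℝ) ^ ρ / log y) :=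
        div_le_div_of_nonneg_left (by positivity) (by positivity) hT1
      have g4 : 4 * u / (δ ^ 2 * w ^ 2) / (c * (y : ℝ) ^ ρ / log y) =
          4 / (δ ^ 2 * c) * (u * log y) * (y : ℝ) ^ (-(ρ - 2 * η)) := by
        rw [rpow_neg hypos.le, ← hyw]
        have h5 : (y : ℝ) ^ ρ ≠ 0 := by positivity
        field_simp
      have g5 : L ≤ 2 * (y : ℝ) ^ (1 / A) := by
        have f1 : L ^ A ≤ 2 * y := by linarith
        have f2 : (L ^ A) ^ (1 / A) ≤ (2 * (y : ℝ)) ^ (1 / A) :=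
          rpow_le_rpow (by positivity) f1 (by positivity)
        rw [← rpow_mul hLpos.le, mul_one_div_cancel hA0.ne', rpow_one,
          mul_rpow (by norm_num) hypos.le] at f2
        refine f2.trans (mul_le_mul_of_nonneg_right ?_ (by positivity))
        have f3 : 1 / A ≤ 1 := by rw [div_le_one hA0]; linarith
        have := rpow_le_rpow_of_exponent_le (by norm_num : (1 : ℝ) ≤ 2) f3
        rwa [rpow_one] at this
      have g6 : (y : ℝ) ^ (-κ) = (y : ℝ) ^ (1 / A) * (y : ℝ) ^ (-(ρ - 2 * η)) := by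
        rw [← rpow_add hypos]; congr 1; rw [hκ]; ring
      have hyρ : (0 : ℝ) < (y : ℝ) ^ (-(ρ - 2 * η)) := by positivity
      calc (4 / q ^ 2 * u / B.card : ℝ) ≤ 4 / (δ ^ 2 * c) * (u * log y) * (y : ℝ) ^ (-(ρ - 2 * η)) := by
            rw [← g4, g2]; rw [g3'] at g3; exact g3.trans g3''
        _ ≤ 4 / (δ ^ 2 * c) * (2 * (y : ℝ) ^ (1 / A)) * (y : ℝ) ^ (-(ρ - 2 * η)) := by
            apply mul_le_mul_of_nonneg_right _ hyρ.le
            exact mul_le_mul_of_nonneg_left (e3.trans g5) (by positivity)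
        _ = 8 / (δ ^ 2 * c) * (y : ℝ) ^ (-κ) := by rw [g6]; ring
        _ ≤ c5 * (y : ℝ) ^ (-κ) := mul_le_mul_of_nonneg_right hc52 (by positivity)
    have g7 : (4 / q ^ 2 * u / B.card : ℝ) ^ u ≤ (c5 * (y : ℝ) ^ (-κ)) ^ u :=
      pow_le_pow_left₀ (by positivity) g1 u
    have g8 : c5 ^ u ≤ (X : ℝ) ^ ε1 := by
      have f1 : log c5 ≤ ε1 * log L := by
        rw [div_le_iff₀ hε1p] at k1b; linarith
      have f2 : (u : ℝ) * log c5 ≤ ε1 * L := by
        calc (u : ℝ) * log c5 ≤ u * (ε1 * log L) := mul_le_mul_of_nonneg_left f1 hu0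
          _ = ε1 * (u * log L) := by ring
          _ ≤ ε1 * L := mul_le_mul_of_nonneg_left e4 hε1p.le
      have f3 : log (c5 ^ u) ≤ log ((X : ℝ) ^ ε1) := by
        rw [log_pow, log_rpow hXpos, ← hL]; exact f2
      exact (log_le_log_iff (by positivity) (by positivity)).1 f3
    have g9 : ((y : ℝ) ^ (-κ)) ^ u ≤ (X : ℝ) ^ (-κ + ε1) := by
      have f1 : ((y : ℝ) ^ (-κ)) ^ u = ((y : ℝ) ^ u) ^ (-κ) := by
        rw [← rpow_natCast, ← rpow_natCast, ← rpow_mul hypos.le, ← rpow_mul hypos.le, mul_comm]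
      have f2 : (X : ℝ) / y ≤ (y : ℝ) ^ u := by
        rw [div_le_iff₀ hypos, ← pow_succ]
        exact_mod_cast e2.le
      have f3 : ((y : ℝ) ^ u) ^ (-κ) ≤ ((X : ℝ) / y) ^ (-κ) :=
        rpow_le_rpow_of_nonpos (by positivity) f2 (by linarith)
      have f4 : ((X : ℝ) / y) ^ (-κ) = (X : ℝ) ^ (-κ) * (y : ℝ) ^ κ := by
        rw [div_rpow hXpos.le hypos.le, rpow_neg hypos.le, div_inv_eq_mul]
      have f5 : (y : ℝ) ^ κ ≤ (X : ℝ) ^ ε1 := by
        have f6 : (y : ℝ) ^ κ ≤ y := by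
          have := rpow_le_rpow_of_exponent_le (by linarith : (1 : ℝ) ≤ y) hκ1
          rwa [rpow_one] at this
        refine f6.trans (hy2.trans ?_)
        have f7 : log (L ^ A') ≤ log ((X : ℝ) ^ ε1) := by
          rw [log_rpow hLpos, log_rpow hXpos, ← hL]; exact k2
        exact (log_le_log_iff (by positivity) (by positivity)).1 f7
      rw [f1]
      refine f3.trans ?_
      rw [f4, rpow_add hXpos]
      exact mul_le_mul_of_nonneg_left f5 (by positivity)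
    calc (4 / q ^ 2 * u / B.card : ℝ) ^ u ≤ (c5 * (y : ℝ) ^ (-κ)) ^ u := g7
      _ = c5 ^ u * ((y : ℝ) ^ (-κ)) ^ u := mul_pow _ _ _
      _ ≤ (X : ℝ) ^ ε1 * (X : ℝ) ^ (-κ + ε1) := mul_le_mul g8 g9 (by positivity) (by positivity)
      _ = (X : ℝ) ^ (-κ + 2 * ε1) := by rw [← rpow_add hXpos]; congr 1; ring
  have hCX : C ≤ (X : ℝ) ^ ε1 := by
    have f7 : log C ≤ log ((X : ℝ) ^ ε1) := by
      rw [log_rpow hXpos, ← hL]; exact k3
    exact (log_le_log_iff hC (by positivity)).1 f7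
  have h4 : (S.choose u : ℝ) ^ 2 * (Exs σ B S X).card ≤ (S.choose u : ℝ) ^ 2 *
      ((X : ℝ) ^ ε1 * (X : ℝ) ^ (1 + ε1) * (X : ℝ) ^ (-κ + 2 * ε1)) := by
    calc (S.choose u : ℝ) ^ 2 * (Exs σ B S X).card = (Exs σ B S X).card * (S.choose u : ℝ) ^ 2 := by ring
      _ ≤ C * (X : ℝ) ^ (1 + ε1) * (B.card.choose u : ℝ) := h1
      _ ≤ C * (X : ℝ) ^ (1 + ε1) * ((S.choose u : ℝ) ^ 2 * (4 / q ^ 2 * u / B.card) ^ u) :=
          mul_le_mul_of_nonneg_left h2 (by positivity)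
      _ ≤ C * (X : ℝ) ^ (1 + ε1) * ((S.choose u : ℝ) ^ 2 * (X : ℝ) ^ (-κ + 2 * ε1)) :=
          mul_le_mul_of_nonneg_left (mul_le_mul_of_nonneg_left hr hSu.le) (by positivity)
      _ ≤ (X : ℝ) ^ ε1 * (X : ℝ) ^ (1 + ε1) * ((S.choose u : ℝ) ^ 2 * (X : ℝ) ^ (-κ + 2 * ε1)) := by
          apply mul_le_mul_of_nonneg_right _ (by positivity)
          exact mul_le_mul_of_nonneg_right hCX (by positivity)
      _ = _ := by ring
  have h5 := le_of_mul_le_mul_left h4 hSu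
  refine h5.trans (le_of_eq ?_)
  rw [← rpow_add hXpos, ← rpow_add hXpos, ← hκ]
  congr 1
  rw [hε1]
  ring

end Pool.Agent.Y464.SP
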