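import Mathlib

set_option autoImplicit false

/-! Negative fundamental discriminants, split primes and Jacobi symbols. -/

namespace Pool.Agent.Y464.SP

open Finset

/-- negative fundamental discriminants -/
def NegFund (d : ℤ) : Prop := d < 0 ∧ ((d % 4 = 1 ∧ Squarefree d) ∨
  (∃ m : ℤ, d = 4 * m ∧ (m % 4 = 2 ∨ m % 4 = 3) ∧ Squarefree m))

/-- the prime `p` splits in `ℚ(√d)` -/
def Splits (d : ℤ) (p : ℕ) : Prop := ¬ ((p : ℤ) ∣ d) ∧ ∃ x : ℤ, (4 * (p : ℤ)) ∣ x ^ 2 - d

lemma negFund_mod {d : ℤ} (hd : NegFund d) : d % 4 = 1 ∨ d % 4 = 0 := by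
  rcases hd.2 with ⟨h, _⟩ | ⟨m, h, _, _⟩
  · exact Or.inl h
  · right; omega

lemma splits_iff {d : ℤ} (hd : NegFund d) {p : ℕ} (hp : p.Prime) (h2 : p ≠ 2) :
    Splits d p ↔ jacobiSym d p = 1 := by
  haveI : Fact p.Prime := ⟨hp⟩
  have hodd : p % 2 = 1 := (hp.eq_two_or_odd).resolve_left h2
  rw [← jacobiSym.legendreSym.to_jacobiSym]
  constructor
  · rintro ⟨h1, x, hx⟩
    have h3 : ((d : ℤ) : ZMod p) ≠ 0 := by
      rw [Ne, ZMod.intCast_zmod_eq_zero_iff_dvd]
      exact h1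
    rw [legendreSym.eq_one_iff p h3]
    refine ⟨(x : ZMod p), ?_⟩
    have h4 : (p : ℤ) ∣ x ^ 2 - d := (Dvd.intro_left _ rfl).trans hx
    have h5 : ((x ^ 2 - d : ℤ) : ZMod p) = 0 := (ZMod.intCast_zmod_eq_zero_iff_dvd _ _).2 h4
    push_cast at h5
    rw [sub_eq_zero] at h5
    rw [← h5, sq]
  · intro h
    have h3 : ((d : ℤ) : ZMod p) ≠ 0 := by
      intro h0
      rw [(legendreSym.eq_zero_iff p d).2 h0] at h
      exact absurd h (by norm_num)
    refine ⟨fun h4 => h3 ((ZMod.intCast_zmod_eq_zero_iff_dvd _ _).2 h4), ?_⟩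
    obtain ⟨z, hz⟩ := (legendreSym.eq_one_iff p h3).1 h
    obtain ⟨x0, hx0⟩ : ∃ x0 : ℤ, (x0 : ZMod p) = z := ⟨(z.val : ℤ), by simp⟩
    have h5 : (p : ℤ) ∣ x0 ^ 2 - d := by
      rw [← ZMod.intCast_zmod_eq_zero_iff_dvd]
      push_cast
      rw [hx0, hz]
      ring
    -- adjust the parity
    obtain ⟨x, hx, hpar⟩ : ∃ x : ℤ, (p : ℤ) ∣ x ^ 2 - d ∧ x % 2 = d % 2 := by
      rcases Int.emod_two_eq_zero_or_one x0 with h6 | h6 <;>
        rcases Int.emod_two_eq_zero_or_one d with h7 | h7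
      · exact ⟨x0, h5, by omega⟩
      · refine ⟨x0 + p, ?_, by omega⟩
        have : (x0 + p) ^ 2 - d = (x0 ^ 2 - d) + p * (2 * x0 + p) := by ring
        rw [this]
        exact dvd_add h5 (dvd_mul_right _ _)
      · refine ⟨x0 + p, ?_, by omega⟩
        have : (x0 + p) ^ 2 - d = (x0 ^ 2 - d) + p * (2 * x0 + p) := by ring
        rw [this]
        exact dvd_add h5 (dvd_mul_right _ _)
      · exact ⟨x0, h5, by omega⟩
    refine ⟨x, ?_⟩
    have h8 : (4 : ℤ) ∣ x ^ 2 - d := by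
      obtain ⟨q, hq⟩ : ∃ q, x = 2 * q + x % 2 := ⟨x / 2, by omega⟩
      rcases negFund_mod hd with h9 | h9
      · have h10 : x % 2 = 1 := by omega
        rw [h10] at hq
        have : x ^ 2 = 4 * (q * q + q) + 1 := by rw [hq]; ring
        omega
      · have h10 : x % 2 = 0 := by omega
        rw [h10] at hq
        have : x ^ 2 = 4 * (q * q) := by rw [hq]; ring
        omega
    have hcop : IsCoprime (4 : ℤ) (p : ℤ) := by
      have : Nat.Coprime 4 p := by
        rw [show 4 = 2 ^ 2 by norm_num]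
        exact Nat.Coprime.pow_left 2 ((Nat.coprime_primes Nat.prime_two hp).2 (Ne.symm h2))
      exact_mod_cast Nat.isCoprime_iff_coprime.2 this
    exact hcop.mul_dvd h8 hx

lemma jac_flip {m p : ℕ} (hm : Odd m) (hp : Odd p) :
    jacobiSym (m : ℤ) p = (if p % 4 = 3 ∧ m % 4 = 3 then -1 else 1) * jacobiSym (p : ℤ) m := by
  have h1 : m % 4 = 1 ∨ m % 4 = 3 := by
    obtain ⟨k, hk⟩ := hm; omega
  have h2 : p % 4 = 1 ∨ p % 4 = 3 := by
    obtain ⟨k, hk⟩ := hp; omega
  rcases h1 with h1 | h1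
  · rw [if_neg (by omega), one_mul, jacobiSym.quadratic_reciprocity_one_mod_four h1 hp]
  · rcases h2 with h2 | h2
    · rw [if_neg (by omega), one_mul, jacobiSym.quadratic_reciprocity_one_mod_four' hm h2]
    · rw [if_pos ⟨h2, h1⟩, jacobiSym.quadratic_reciprocity_three_mod_four h1 h2]
      ring

/-- the symbol of a fundamental discriminant at `p` is, up to a sign depending on `p` modulo `8` only, the symbol
of `p` modulo the odd part -/
theorem sym_class {d : ℤ} (hd : NegFund d) : ∃ (t m : ℕ) (s : ℕ → ℤ), (t = 1 ∨ t = 4 ∨ t = 8) ∧ Odd m ∧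
    Squarefree m ∧ d = -((t * m : ℕ) : ℤ) ∧ (∀ a, s a = 1 ∨ s a = -1) ∧
    ∀ p : ℕ, p.Prime → p ≠ 2 → jacobiSym d p = s (p % 8) * jacobiSym (p : ℤ) m := by
  have hchi4 : ∀ p : ℕ, Odd p → ZMod.χ₄ (p : ZMod 4) = if p % 4 = 3 then -1 else 1 := by
    intro p hp
    rw [ZMod.χ₄_nat_eq_if_mod_four]
    obtain ⟨k, hk⟩ := hp
    rw [if_neg (by omega)]
    by_cases h : p % 4 = 1
    · rw [if_pos h, if_neg (by omega)]
    · rw [if_neg h, if_pos (by omega)]
  have hoddp : ∀ p : ℕ, p.Prime → p ≠ 2 → Odd p := fun p hp h2 => hp.odd_of_ne_two h2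
  rcases hd.2 with ⟨h1, hsq⟩ | ⟨m0, hdm, h1, hsq⟩
  · obtain ⟨m, hm⟩ : ∃ m : ℕ, d = -(m : ℤ) := ⟨d.natAbs, by have := hd.1; omega⟩
    have hmod : m % 4 = 3 := by omega
    have hmo : Odd m := by rw [Nat.odd_iff]; omega
    refine ⟨1, m, fun _ => 1, Or.inl rfl, hmo, ?_, by rw [hm]; simp, fun _ => Or.inl rfl, ?_⟩
    · rw [hm] at hsq
      have h5 : Squarefree (m : ℤ) := by
        have := hsq.squarefree_of_dvd (show (m : ℤ) ∣ -(m : ℤ) from (dvd_neg).2 dvd_rfl)
        exact this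
      exact Int.squarefree_natCast.1 h5
    · intro p hp h2
      have hpo := hoddp p hp h2
      rw [hm, jacobiSym.neg _ hpo, jac_flip hmo hpo, hchi4 p hpo]
      by_cases h : p % 4 = 3
      · rw [if_pos h, if_pos ⟨h, hmod⟩]; ring
      · rw [if_neg h, if_neg (by tauto)]; ring
  · have hm0neg : m0 < 0 := by have := hd.1; omega
    have h4 : ∀ p : ℕ, Odd p → jacobiSym (4 : ℤ) p = 1 := by
      intro p hp
      rw [show (4 : ℤ) = 2 ^ 2 by norm_num]
      have hc : IsCoprime (2 : ℤ) (p : ℤ) := by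
        exact_mod_cast Nat.isCoprime_iff_coprime.2 (Nat.coprime_two_left.2 hp)
      exact jacobiSym.sq_one' (by
        rw [Int.isCoprime_iff_gcd_eq_one] at hc
        exact hc)
    rcases h1 with h1 | h1
    · -- `d = -8 m`
      obtain ⟨m, hm⟩ : ∃ m : ℕ, m0 = -(2 * (m : ℤ)) := ⟨(m0 / 2).natAbs, by omega⟩
      have hmo : Odd m := by rw [Nat.odd_iff]; omega
      refine ⟨8, m, fun a => (if a = 1 ∨ a = 3 then 1 else -1) *
        (if a % 4 = 3 ∧ m % 4 = 3 then -1 else 1), Or.inr (Or.inr rfl), hmo, ?_, ?_, ?_, ?_⟩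
      · rw [hm] at hsq
        have h5 : Squarefree (m : ℤ) :=
          hsq.squarefree_of_dvd ((dvd_neg).2 (Dvd.intro_left _ rfl))
        exact Int.squarefree_natCast.1 h5
      · rw [hdm, hm]; push_cast; ring
      · intro a
        dsimp only
        split_ifs <;> simp
      · intro p hp h2
        have hpo := hoddp p hp h2
        rw [hdm, hm, jacobiSym.mul_left, h4 p hpo, one_mul, show -(2 * (m : ℤ)) = (-2) * m by ring,
          jacobiSym.mul_left, jacobiSym.at_neg_two hpo, jac_flip hmo hpo,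
          ZMod.χ₈'_nat_eq_if_mod_eight]
        rw [Nat.odd_iff] at hpo
        rw [if_neg (by omega)]
        dsimp only
        rw [show p % 8 % 4 = p % 4 by omega]
        ring
    · -- `d = -4 m`
      obtain ⟨m, hm⟩ : ∃ m : ℕ, m0 = -(m : ℤ) := ⟨m0.natAbs, by omega⟩
      have hmod : m % 4 = 1 := by omega
      have hmo : Odd m := by rw [Nat.odd_iff]; omega
      refine ⟨4, m, fun a => if a % 4 = 3 then -1 else 1, Or.inr (Or.inl rfl), hmo, ?_, ?_, ?_, ?_⟩
      · rw [hm] at hsq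
        have h5 : Squarefree (m : ℤ) := hsq.squarefree_of_dvd ((dvd_neg).2 dvd_rfl)
        exact Int.squarefree_natCast.1 h5
      · rw [hdm, hm]; push_cast; ring
      · intro a
        dsimp only
        split_ifs <;> simp
      · intro p hp h2
        have hpo := hoddp p hp h2
        rw [hdm, hm, jacobiSym.mul_left, h4 p hpo, one_mul, jacobiSym.neg _ hpo, jac_flip hmo hpo,
          hchi4 p hpo, if_neg (show ¬ (p % 4 = 3 ∧ m % 4 = 3) by omega), one_mul]
        dsimp only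
        rw [show p % 8 % 4 = p % 4 by omega]

end Pool.Agent.Y464.SP
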