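import Pool.Agent.Y464.SP.Cnt
import Pool.Agent.Y464.SP.Sym

set_option autoImplicit false

/-! A discriminant with an unusual number of split primes has an odd part with biased symbols. -/

namespace Pool.Agent.Y464.SP

open Finset Real Filter

/-- the class `a` modulo `8` of the odd elements -/
def cls (B : Finset ℕ) (a : ℕ) : Finset ℕ := B.filter (fun p => p ≠ 2 ∧ p % 8 = a)

lemma two_pow_card (n : ℕ) (hn : n ≠ 0) : 2 ^ n.primeFactors.card ≤ n := by
  calc 2 ^ n.primeFactors.card = ∏ _p ∈ n.primeFactors, 2 := by rw [prod_const]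
    _ ≤ ∏ p ∈ n.primeFactors, p := prod_le_prod' fun p hp => (Nat.prime_of_mem_primeFactors hp).two_le
    _ ≤ n := Nat.le_of_dvd (Nat.pos_of_ne_zero hn) (Nat.prod_primeFactors_dvd n)

/-- one sign -/
lemma one_sign {X : ℕ} {d : ℤ} {m : ℕ} {s : ℕ → ℤ} (hmo : Odd m) (hsq : Squarefree m) (hmX : m ≤ X)
    (hs : ∀ a, s a = 1 ∨ s a = -1)
    (hJ : ∀ p : ℕ, p.Prime → p ≠ 2 → jacobiSym d p = s (p % 8) * jacobiSym (p : ℤ) m)
    {B : Finset ℕ} (hB : ∀ p ∈ B, p.Prime) {E : ℝ} (hE : 0 ≤ E) {τ : ℤ} (hτ : τ = 1 ∨ τ = -1)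
    (h : (((B.filter (fun p => p ≠ 2)).filter (fun p => jacobiSym d p = -τ)).card : ℝ) + E <
      ((B.filter (fun p => p ≠ 2)).filter (fun p => jacobiSym d p = τ)).card) :
    ∃ a σ, a < 8 ∧ (σ = 1 ∨ σ = -1) ∧ m ∈ Exs σ (cls B a) ⌈E / 8⌉₊ X := by
  classical
  -- split into classes
  have hsum : ∀ w : ℤ, (((B.filter (fun p => p ≠ 2)).filter (fun p => jacobiSym d p = w)).card : ℝ) =
      ∑ a ∈ range 8, (((cls B a).filter (fun p : ℕ => jacobiSym d p = w)).card : ℝ) := by
    intro w
    rw [← Nat.cast_sum]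
    congr 1
    rw [card_eq_sum_card_fiberwise (f := fun p => p % 8) (t := range 8)
      (fun p _ => by rw [coe_range, Set.mem_Iio]; exact Nat.mod_lt _ (by norm_num))]
    apply sum_congr rfl
    intro a _
    congr 1
    ext p
    simp only [cls, mem_filter]
    tauto
  obtain ⟨a, ha, hlt⟩ : ∃ a ∈ range 8,
      (((cls B a).filter (fun p : ℕ => jacobiSym d p = -τ)).card : ℝ) + E / 8 <
        ((cls B a).filter (fun p : ℕ => jacobiSym d p = τ)).card := by
    by_contra hcon
    push Not at hcon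
    have h1 := sum_le_sum hcon
    rw [sum_add_distrib, sum_const, card_range, nsmul_eq_mul, ← hsum, ← hsum] at h1
    push_cast at h1
    linarith
  refine ⟨a, τ * s a, mem_range.1 ha, ?_, ?_⟩
  · rcases hτ with rfl | rfl <;> rcases hs a with h1 | h1 <;> rw [h1] <;> norm_num
  · rw [mem_Exs]
    have hm1 : 1 ≤ m := hmo.pos
    refine ⟨⟨hm1, hmX⟩, hmo, hsq, ?_⟩
    have hconv : ∀ w : ℤ, (w = 1 ∨ w = -1) → ((cls B a).filter fun ℓ : ℕ => jacobiSym (ℓ : ℤ) m = w * s a) =
        ((cls B a).filter (fun p : ℕ => jacobiSym d p = w)) := by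
      intro w hw
      apply filter_congr
      intro p hp
      rw [cls, mem_filter] at hp
      rw [hJ p (hB p hp.1) hp.2.1, hp.2.2]
      rcases hs a with h1 | h1 <;> rw [h1] <;> constructor <;> intro h2 <;> linarith
    have e1 : -(τ * s a) = (-τ) * s a := by ring
    rw [e1, hconv (-τ) (by rcases hτ with rfl | rfl <;> norm_num), hconv τ hτ]
    have h4 : ((cls B a).filter (fun p : ℕ => jacobiSym d p = -τ)).card ≤
        ((cls B a).filter (fun p : ℕ => jacobiSym d p = τ)).card := by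
      have h5 : (((cls B a).filter (fun p : ℕ => jacobiSym d p = -τ)).card : ℝ) ≤
          ((cls B a).filter (fun p : ℕ => jacobiSym d p = τ)).card := by
        have : 0 ≤ E / 8 := by positivity
        linarith
      exact_mod_cast h5
    have h3 : E / 8 ≤ (((cls B a).filter (fun p : ℕ => jacobiSym d p = τ)).card -
        ((cls B a).filter (fun p : ℕ => jacobiSym d p = -τ)).card : ℕ) := by
      rw [Nat.cast_sub h4]; linarith
    have h7 := Nat.ceil_le.2 h3
    omega

/-- **The reduction.** -/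
theorem comb {X : ℕ} {d : ℤ} (hd : NegFund d) (hdX : d.natAbs ≤ X) {B : Finset ℕ} (hB : ∀ p ∈ B, p.Prime)
    [DecidablePred (Splits d)] {E : ℝ} (hE : (Nat.log 2 X : ℝ) + 3 ≤ E)
    (hbad : E < |((B.filter (fun p => Splits d p)).card : ℝ) - B.card / 2|) :
    ∃ t m a σ, (t = 1 ∨ t = 4 ∨ t = 8) ∧ a < 8 ∧ ((σ : ℤ) = 1 ∨ σ = -1) ∧ d = -((t * m : ℕ) : ℤ) ∧
      m ∈ Exs σ (cls B a) ⌈E / 8⌉₊ X := by
  classical
  obtain ⟨t, m, s, ht, hmo, hsq, hdt, hs, hJ⟩ := sym_class hd
  have hE0 : 0 ≤ E := by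
    have : (0 : ℝ) ≤ (Nat.log 2 X : ℝ) := Nat.cast_nonneg _
    linarith
  have hd0 : d.natAbs ≠ 0 := by have := hd.1; omega
  have hmX : m ≤ X := by
    have h1 : d.natAbs = t * m := by rw [hdt, Int.natAbs_neg, Int.natAbs_natCast]
    have h2 : m ≤ t * m := Nat.le_mul_of_pos_left m (by omega)
    omega
  obtain ⟨B', hB'⟩ : ∃ B', B' = B.filter (fun p => p ≠ 2) := ⟨_, rfl⟩
  have hB'p : ∀ p ∈ B', p.Prime ∧ p ≠ 2 := by
    intro p hp
    rw [hB', mem_filter] at hp
    exact ⟨hB p hp.1, hp.2⟩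
  -- the number of elements
  have c1 : B.card ≤ B'.card + 1 := by
    have : B ⊆ insert 2 B' := by
      intro p hp
      rw [mem_insert, hB', mem_filter]
      by_cases h : p = 2
      · exact Or.inl h
      · exact Or.inr ⟨hp, h⟩
    exact (card_le_card this).trans (card_insert_le _ _)
  have c2 : B'.card ≤ B.card := by rw [hB']; exact card_filter_le _ _
  -- the three kinds
  have c3 : (B'.filter (fun p => jacobiSym d p = 1)).card + (B'.filter (fun p => jacobiSym d p = -1)).card +
      (B'.filter (fun p => jacobiSym d p = 0)).card = B'.card := by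
    have h1 := card_filter_add_card_filter_not (s := B') (fun p : ℕ => jacobiSym d p = 1)
    have h2 := card_filter_add_card_filter_not (s := B'.filter (fun p : ℕ => ¬ jacobiSym d p = 1))
      (fun p : ℕ => jacobiSym d p = -1)
    have h3 : (B'.filter (fun p : ℕ => ¬ jacobiSym d p = 1)).filter (fun p : ℕ => jacobiSym d p = -1) =
        B'.filter (fun p => jacobiSym d p = -1) := by
      ext p
      simp only [mem_filter]
      constructor
      · rintro ⟨⟨a, _⟩, c⟩; exact ⟨a, c⟩
      · rintro ⟨a, c⟩; exact ⟨⟨a, by rw [c]; norm_num⟩, c⟩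
    have h4 : (B'.filter (fun p : ℕ => ¬ jacobiSym d p = 1)).filter (fun p : ℕ => ¬ jacobiSym d p = -1) =
        B'.filter (fun p => jacobiSym d p = 0) := by
      ext p
      simp only [mem_filter]
      constructor
      · rintro ⟨⟨a, b⟩, c⟩
        rcases jacobiSym.trichotomy d p with h | h | h
        · exact ⟨a, h⟩
        · exact absurd h b
        · exact absurd h c
      · rintro ⟨a, c⟩; exact ⟨⟨a, by rw [c]; norm_num⟩, by rw [c]; norm_num⟩
    rw [h3, h4] at h2
    omega
  -- ramified primes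
  have c4 : (B'.filter (fun p => jacobiSym d p = 0)).card ≤ Nat.log 2 X := by
    have h1 : B'.filter (fun p => jacobiSym d p = 0) ⊆ d.natAbs.primeFactors := by
      intro p hp
      rw [mem_filter] at hp
      obtain ⟨hpp, _⟩ := hB'p p hp.1
      haveI : Fact p.Prime := ⟨hpp⟩
      rw [Nat.mem_primeFactors]
      refine ⟨hpp, ?_, hd0⟩
      have h2 : legendreSym p d = 0 := by rw [jacobiSym.legendreSym.to_jacobiSym]; exact hp.2
      rw [legendreSym.eq_zero_iff, ZMod.intCast_zmod_eq_zero_iff_dvd] at h2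
      exact Int.natCast_dvd.1 h2
    refine (card_le_card h1).trans ?_
    apply Nat.le_log_of_pow_le (by norm_num)
    exact (two_pow_card _ hd0).trans hdX
  -- split primes
  have c5 : (B'.filter (fun p => jacobiSym d p = 1)).card ≤ (B.filter (fun p => Splits d p)).card := by
    apply card_le_card
    intro p hp
    rw [mem_filter] at hp ⊢
    obtain ⟨hpp, h2⟩ := hB'p p hp.1
    rw [hB', mem_filter] at hp
    exact ⟨hp.1.1, (splits_iff hd hpp h2).2 hp.2⟩
  have c6 : (B.filter (fun p => Splits d p)).card ≤ (B'.filter (fun p => jacobiSym d p = 1)).card + 1 := by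
    have : B.filter (fun p => Splits d p) ⊆ insert 2 (B'.filter (fun p => jacobiSym d p = 1)) := by
      intro p hp
      rw [mem_filter] at hp
      rw [mem_insert, mem_filter, hB', mem_filter]
      by_cases h : p = 2
      · exact Or.inl h
      · exact Or.inr ⟨⟨hp.1, h⟩, (splits_iff hd (hB p hp.1) h).1 hp.2⟩
    exact (card_le_card this).trans (card_insert_le _ _)
  -- real versions
  have r1 : (B.card : ℝ) ≤ B'.card + 1 := by exact_mod_cast c1
  have r2 : (B'.card : ℝ) ≤ B.card := by exact_mod_cast c2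
  have r3 : ((B'.filter (fun p => jacobiSym d p = 1)).card : ℝ) + (B'.filter (fun p => jacobiSym d p = -1)).card +
      (B'.filter (fun p => jacobiSym d p = 0)).card = B'.card := by exact_mod_cast c3
  have r4 : ((B'.filter (fun p => jacobiSym d p = 0)).card : ℝ) ≤ Nat.log 2 X := by exact_mod_cast c4
  have r5 : ((B'.filter (fun p => jacobiSym d p = 1)).card : ℝ) ≤ (B.filter (fun p => Splits d p)).card := by
    exact_mod_cast c5
  have r6 : ((B.filter (fun p => Splits d p)).card : ℝ) ≤ (B'.filter (fun p => jacobiSym d p = 1)).card + 1 := by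
    exact_mod_cast c6
  have r7 : (0 : ℝ) ≤ ((B'.filter (fun p => jacobiSym d p = 0)).card : ℝ) := Nat.cast_nonneg _
  rcases lt_abs.1 hbad with h | h
  · obtain ⟨a, σ, h1, h2, h3⟩ := one_sign (X := X) (τ := 1) hmo hsq hmX hs hJ hB hE0 (Or.inl rfl) (by
      rw [← hB']
      linarith)
    exact ⟨t, m, a, σ, ht, h1, h2, hdt, h3⟩
  · obtain ⟨a, σ, h1, h2, h3⟩ := one_sign (X := X) (τ := -1) hmo hsq hmX hs hJ hB hE0 (Or.inr rfl) (by
      rw [← hB', neg_neg]
      linarith)
    exact ⟨t, m, a, σ, ht, h1, h2, hdt, h3⟩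

end Pool.Agent.Y464.SP
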