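import Pool.Agent.Y464.SP.Comb
import Pool.Agent.Y854.GM.Win
import Pool.Agent.Y854.GM.Dya

set_option autoImplicit false

/-! Exceptional discriminants: counting. -/

namespace Pool.Agent.Y464.SP

open Finset Real Filter

open Classical in
/-- the elements of `P` up to `y` -/
noncomputable def upTo (P : Set ℕ) (y : ℕ) : Finset ℕ := (range (y + 1)).filter (fun p => p ∈ P)

open Classical in
/-- the elements of `P` up to `y` which split -/
noncomputable def spl (P : Set ℕ) (d : ℤ) (y : ℕ) : Finset ℕ := (upTo P y).filter (fun p => Splits d p)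

/-- the number of split primes up to `y` in `P` is not within `δ y^(-η) |P(y)|` of `|P(y)| / 2` -/
def Bad (P : Set ℕ) (δ η : ℝ) (d : ℤ) (y : ℕ) : Prop :=
  δ * (y : ℝ) ^ (-η) * (upTo P y).card < |((spl P d y).card : ℝ) - (upTo P y).card / 2|

lemma low_y {ρ c A A' L y : ℝ} (hρ : 0 < ρ) (hρ1 : ρ ≤ 1) (hc : 0 < c) (hA : 2 ≤ ρ * A) (hAA : A ≤ A') (h3 : 3 ≤ L)
    (hy1 : L ^ A / 2 ≤ y) (hy2 : y ≤ L ^ A') : L ≤ y ∧ c / (2 * A') * (L * L) / log L ≤ c * y ^ ρ / log y := by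
  have hA2 : 2 ≤ A := by nlinarith
  have hA'0 : 0 < A' := by linarith
  have hLpos : 0 < L := by linarith
  have hlogL : 1 ≤ log L := by
    rw [le_log_iff_exp_le hLpos]; linarith [exp_one_lt_d9]
  have hLA : L ^ (2 : ℝ) ≤ L ^ A := rpow_le_rpow_of_exponent_le (by linarith) hA2
  have hLA' : L ^ (2 : ℝ) = L * L := by rw [rpow_two, sq]
  have hyL : L ≤ y := by
    have g1 : 3 * L ≤ L * L := mul_le_mul_of_nonneg_right h3 hLpos.le
    rw [hLA'] at hLA
    linarith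
  have hypos : (0 : ℝ) < y := by linarith
  have hlogy : log L ≤ log y := log_le_log hLpos hyL
  have hlogy2 : log y ≤ A' * log L := by
    have := log_le_log hypos hy2
    rwa [log_rpow hLpos] at this
  refine ⟨hyL, ?_⟩
  have g1 : L ^ (2 : ℝ) / 2 ≤ y ^ ρ := by
    have g2 : (L ^ A / 2) ^ ρ ≤ y ^ ρ := rpow_le_rpow (by positivity) hy1 hρ.le
    refine le_trans ?_ g2
    rw [div_rpow (by positivity) (by norm_num), ← rpow_mul hLpos.le]
    have g3 : (2 : ℝ) ^ ρ ≤ 2 := by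
      have := rpow_le_rpow_of_exponent_le (by norm_num : (1 : ℝ) ≤ 2) hρ1
      rwa [rpow_one] at this
    have g4 : L ^ (2 : ℝ) ≤ L ^ (A * ρ) :=
      rpow_le_rpow_of_exponent_le (by linarith) (by linarith)
    have g5 : (0 : ℝ) < 2 ^ ρ := by positivity
    calc L ^ (2 : ℝ) / 2 ≤ L ^ (A * ρ) / 2 := by linarith
      _ ≤ L ^ (A * ρ) / 2 ^ ρ := div_le_div_of_nonneg_left (by positivity) g5 g3
  calc c / (2 * A') * (L * L) / log L = c * (L ^ (2 : ℝ) / 2) / (A' * log L) := by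
        rw [hLA']; field_simp
    _ ≤ c * y ^ ρ / (A' * log L) := by
        apply div_le_div_of_nonneg_right _ (by positivity)
        exact mul_le_mul_of_nonneg_left g1 hc.le
    _ ≤ c * y ^ ρ / log y := div_le_div_of_nonneg_left (by positivity) (by linarith) hlogy2

/-- the exceptional discriminants in a dyadic range -/
def Z (P : Set ℕ) (A A' δ η : ℝ) (N : ℕ) : Set ℤ := {d : ℤ | NegFund d ∧ d.natAbs ≤ N ∧
  ∃ y : ℕ, (log N) ^ A / 2 ≤ y ∧ (y : ℝ) ≤ (log N) ^ A' ∧ Bad P δ η d y}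

lemma Z_fin (P : Set ℕ) (A A' δ η : ℝ) (N : ℕ) : (Z P A A' δ η N).Finite := by
  refine (Set.finite_Icc (-(N : ℤ)) N).subset ?_
  rintro d ⟨-, h1, -⟩
  rw [Set.mem_Icc]
  omega

theorem count_Z (P : Set ℕ) (hP : ∀ p ∈ P, p.Prime) (ρ c A A' δ η ε : ℝ) (y0 : ℕ) (hρ1 : ρ ≤ 1)
    (hc : 0 < c) (hη : 0 ≤ η) (hρ : 0 < ρ - 2 * η) (hA : 2 ≤ (ρ - 2 * η) * A) (hAA : A ≤ A') (hδ : 0 < δ)
    (hδ1 : δ ≤ 1) (hε : 0 < ε)
    (hlow : ∀ y : ℕ, y0 ≤ y → c * (y : ℝ) ^ ρ / log y ≤ (upTo P y).card) :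
    ∃ N₁ : ℕ, ∀ N : ℕ, N₁ ≤ N → ((Z P A A' δ η N).ncard : ℝ) ≤ (N : ℝ) ^ (1 - (ρ - 2 * η - 1 / A) + ε) := by
  classical
  have hA2 : 2 ≤ A := by nlinarith
  have hA'0 : 0 < A' := by linarith
  obtain ⟨L0, hL03, hcnt⟩ := cnt ρ c A A' (δ / 8) η (ε / 2) hρ1 hc hη hρ hA hAA
    (by positivity) (by linarith) (by positivity)
  obtain ⟨L1, hL13, hL1⟩ := large (2 * A') (log 96 / (ε / 4) + 1) (max (log 96) y0) (ε / 4) (by positivity)
  obtain ⟨L2, hL23, hL2⟩ := large (16 * A' / (δ * c)) 0 0 1 (by norm_num)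
  refine ⟨⌈exp (max L0 (max L1 (max L2 y0)))⌉₊, fun N hN => ?_⟩
  obtain ⟨L, hL⟩ : ∃ L : ℝ, L = log N := ⟨_, rfl⟩
  have hNexp : exp (max L0 (max L1 (max L2 y0))) ≤ N := (Nat.le_ceil _).trans (by exact_mod_cast hN)
  have hN0 : (0 : ℝ) < N := lt_of_lt_of_le (exp_pos _) hNexp
  have hLm : max L0 (max L1 (max L2 y0)) ≤ L := by rw [hL, le_log_iff_exp_le hN0]; exact hNexp
  have hLL0 : L0 ≤ L := (le_max_left _ _).trans hLm
  have hLL1 : L1 ≤ L := (le_max_left _ _).trans ((le_max_right _ _).trans hLm)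
  have hLL2 : L2 ≤ L := (le_max_left _ _).trans ((le_max_right _ _).trans ((le_max_right _ _).trans hLm))
  have hLy0 : (y0 : ℝ) ≤ L := (le_max_right _ _).trans ((le_max_right _ _).trans ((le_max_right _ _).trans hLm))
  have h3 : 3 ≤ L := hL03.trans hLL0
  have hLpos : 0 < L := by linarith
  have hlogL : 1 ≤ log L := by
    rw [le_log_iff_exp_le hLpos]; linarith [exp_one_lt_d9]
  obtain ⟨k1, k2, k3⟩ := hL1 L hLL1
  obtain ⟨_, m2, _⟩ := hL2 L hLL2
  -- the covering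
  obtain ⟨Y, hY⟩ : ∃ Y : ℕ, Y = ⌊L ^ A'⌋₊ := ⟨_, rfl⟩
  set I : Finset (((ℕ × ℕ) × ℤ) × ℕ) := ((((range (Y + 1)).filter (fun y : ℕ => L ^ A / 2 ≤ y)) ×ˢ range 8) ×ˢ
    ({1, -1} : Finset ℤ)) ×ˢ ({1, 4, 8} : Finset ℕ) with hI
  set F : (((ℕ × ℕ) × ℤ) × ℕ) → Finset ℤ := fun i =>
    (Exs i.1.2 (cls (upTo P i.1.1.1) i.1.1.2) ⌈δ * (i.1.1.1 : ℝ) ^ (-η) * (upTo P i.1.1.1).card / 8⌉₊ N).image
      (fun m => -((i.2 * m : ℕ) : ℤ)) with hF
  have hsub : Z P A A' δ η N ⊆ (I.biUnion F : Finset ℤ) := by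
    rintro d ⟨hd, hdN, y, hy1, hy2, hbad⟩
    rw [← hL] at hy1 hy2
    obtain ⟨hyL, hlow2⟩ := low_y hρ (by linarith) hc hA hAA h3 hy1 hy2
    have hyy0 : y0 ≤ y := by exact_mod_cast hLy0.trans hyL
    have hN1 := hlow y hyy0
    have hBp : ∀ p ∈ upTo P y, p.Prime := by
      intro p hp
      rw [upTo, mem_filter] at hp
      exact hP p hp.2
    have hE : (Nat.log 2 N : ℝ) + 3 ≤ δ * (y : ℝ) ^ (-η) * (upTo P y).card := by
      have f1 : (Nat.log 2 N : ℝ) ≤ 2 * L := by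
        have g1 : 2 ^ Nat.log 2 N ≤ N := Nat.pow_log_le_self 2 (by
          have : (N : ℝ) ≠ 0 := hN0.ne'
          exact_mod_cast this)
        have g2 : ((2 ^ Nat.log 2 N : ℕ) : ℝ) ≤ N := by exact_mod_cast g1
        push_cast at g2
        have g3 := log_le_log (by positivity) g2
        rw [log_pow, ← hL] at g3
        have g4 : (1 : ℝ) / 2 ≤ log 2 := by linarith [log_two_gt_d9]
        have g5 : (0 : ℝ) ≤ (Nat.log 2 N : ℝ) := Nat.cast_nonneg _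
        nlinarith
      have f2 : 3 * L ≤ δ * (c / (2 * A') * (L * L) / log L) := by
        have g1 : δ * (c / (2 * A') * (L * L) / log L) = L * (δ * c * L / (2 * A' * log L)) := by
          field_simp
        rw [g1, mul_comm 3 L]
        apply mul_le_mul_of_nonneg_left _ hLpos.le
        rw [le_div_iff₀ (by positivity)]
        rw [one_mul] at m2
        rw [div_mul_eq_mul_div, div_le_iff₀ (by positivity)] at m2
        have g2 : 0 < A' * log L := by positivity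
        linarith
      have hy1' : (1 : ℝ) ≤ y := by linarith
      have hypos : (0 : ℝ) < y := by linarith
      have f4 : c * (y : ℝ) ^ (ρ - 2 * η) / log y ≤ (y : ℝ) ^ (-η) * (upTo P y).card := by
        have g1 : (y : ℝ) ^ (ρ - 2 * η) ≤ (y : ℝ) ^ (-η) * (y : ℝ) ^ ρ := by
          rw [← rpow_add hypos]
          exact rpow_le_rpow_of_exponent_le hy1' (by linarith)
        have g2 : 0 ≤ log (y : ℝ) := log_nonneg hy1'
        calc c * (y : ℝ) ^ (ρ - 2 * η) / log y ≤ c * ((y : ℝ) ^ (-η) * (y : ℝ) ^ ρ) / log y :=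
              div_le_div_of_nonneg_right (mul_le_mul_of_nonneg_left g1 hc.le) g2
          _ = (y : ℝ) ^ (-η) * (c * (y : ℝ) ^ ρ / log y) := by ring
          _ ≤ (y : ℝ) ^ (-η) * (upTo P y).card := mul_le_mul_of_nonneg_left hN1 (by positivity)
      have f3 : δ * (c / (2 * A') * (L * L) / log L) ≤ δ * ((y : ℝ) ^ (-η) * (upTo P y).card) :=
        mul_le_mul_of_nonneg_left (hlow2.trans f4) hδ.le
      linarith
    have hbad' : δ * (y : ℝ) ^ (-η) * (upTo P y).card < |(((upTo P y).filter (fun p => Splits d p)).card : ℝ) -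
        (upTo P y).card / 2| := hbad
    obtain ⟨t, m, a, σ, ht, ha, hσ, hdt, hm⟩ := comb hd hdN hBp hE hbad'
    rw [mem_coe, mem_biUnion]
    refine ⟨(((y, a), σ), t), ?_, ?_⟩
    · rw [hI]
      simp only [mem_product, mem_filter, mem_range, mem_insert, mem_singleton]
      refine ⟨⟨⟨⟨?_, hy1⟩, ha⟩, hσ⟩, ht⟩
      have : y ≤ Y := by rw [hY]; exact Nat.le_floor hy2
      omega
    · rw [hF]
      simp only [mem_image]
      exact ⟨m, hm, hdt.symm⟩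
  have hcardF : ∀ i ∈ I, ((F i).card : ℝ) ≤ (N : ℝ) ^ (1 - (ρ - 2 * η - 1 / A) + ε / 2) := by
    rintro ⟨⟨⟨y, a⟩, σ⟩, t⟩ hi
    rw [hI] at hi
    simp only [mem_product, mem_filter, mem_range, mem_insert, mem_singleton] at hi
    obtain ⟨⟨⟨⟨hyY, hy1⟩, ha⟩, hσ⟩, ht⟩ := hi
    have hy2 : (y : ℝ) ≤ L ^ A' := by
      have h1 : y ≤ Y := by omega
      have h2 : (Y : ℝ) ≤ L ^ A' := by rw [hY]; exact Nat.floor_le (by positivity)
      exact le_trans (by exact_mod_cast h1) h2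
    obtain ⟨hyL, hlow2⟩ := low_y hρ (by linarith) hc hA hAA h3 hy1 hy2
    have hyy0 : y0 ≤ y := by exact_mod_cast hLy0.trans hyL
    have hN1 := hlow y hyy0
    have hBp : ∀ p ∈ upTo P y, p.Prime ∧ p ≤ y := by
      intro p hp
      rw [upTo, mem_filter, mem_range] at hp
      exact ⟨hP p hp.2, by omega⟩
    have hce : δ * (y : ℝ) ^ (-η) * (upTo P y).card / 8 ≤ (⌈δ * (y : ℝ) ^ (-η) * (upTo P y).card / 8⌉₊ : ℝ) :=
      Nat.le_ceil _
    have h1 := hcnt σ (cls (upTo P y) a) y ⌈δ * (y : ℝ) ^ (-η) * (upTo P y).card / 8⌉₊ N (upTo P y).card hσ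
      (fun p hp => (hBp p (mem_filter.1 hp).1).1) (fun p hp => (hBp p (mem_filter.1 hp).1).2)
      (by rw [← hL]; exact hLL0) (by rw [← hL]; exact hy1) (by rw [← hL]; exact hy2)
      hN1 (by exact_mod_cast card_filter_le _ _)
      (by
        refine le_trans (le_of_eq ?_) hce
        ring)
    refine le_trans ?_ h1
    rw [hF]
    exact_mod_cast card_image_le
  have hcardI : (I.card : ℝ) ≤ 48 * (Y + 1) := by
    have h1 : I.card ≤ (Y + 1) * 8 * 2 * 3 := by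
      rw [hI, card_product, card_product, card_product]
      have e1 : ((range (Y + 1)).filter (fun y : ℕ => L ^ A / 2 ≤ y)).card ≤ Y + 1 := by
        refine (card_filter_le _ _).trans ?_
        rw [card_range]
      have e2 : (({1, -1} : Finset ℤ)).card ≤ 2 := card_le_two
      have e3 : (({1, 4, 8} : Finset ℕ)).card ≤ 3 := card_le_three
      rw [card_range]
      gcongr
    have h2 : (I.card : ℝ) ≤ ((Y + 1) * 8 * 2 * 3 : ℕ) := by exact_mod_cast h1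
    push_cast at h2
    linarith
  have h5 : (Z P A A' δ η N).ncard ≤ (I.biUnion F).card := by
    have := Set.ncard_le_ncard hsub (Finset.finite_toSet _)
    rwa [Set.ncard_coe_finset] at this
  have h6 : ((Z P A A' δ η N).ncard : ℝ) ≤ I.card * (N : ℝ) ^ (1 - (ρ - 2 * η - 1 / A) + ε / 2) := by
    calc ((Z P A A' δ η N).ncard : ℝ) ≤ ((I.biUnion F).card : ℝ) := by exact_mod_cast h5
      _ ≤ ((∑ i ∈ I, (F i).card : ℕ) : ℝ) := by exact_mod_cast card_biUnion_le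
      _ = ∑ i ∈ I, ((F i).card : ℝ) := by push_cast; rfl
      _ ≤ ∑ _i ∈ I, (N : ℝ) ^ (1 - (ρ - 2 * η - 1 / A) + ε / 2) := sum_le_sum hcardF
      _ = _ := by rw [sum_const, nsmul_eq_mul]
  refine h6.trans ?_
  have h7 : (I.card : ℝ) ≤ (N : ℝ) ^ (ε / 2) := by
    have hYr : (Y : ℝ) ≤ L ^ A' := by rw [hY]; exact Nat.floor_le (by positivity)
    have hL1' : 1 ≤ L ^ A' := one_le_rpow (by linarith) hA'0.le
    have g1 : (I.card : ℝ) ≤ 96 * L ^ A' := by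
      calc (I.card : ℝ) ≤ 48 * (Y + 1) := hcardI
        _ ≤ 96 * L ^ A' := by linarith
    refine g1.trans ?_
    have g2 : log (96 * L ^ A') ≤ log ((N : ℝ) ^ (ε / 2)) := by
      rw [log_mul (by norm_num) (by positivity), log_rpow hLpos, log_rpow hN0, ← hL]
      have g3 : log 96 ≤ ε / 4 * L := (le_max_left _ _).trans k3
      have g4 : A' * log L ≤ 2 * A' * log L := by
        have : 0 ≤ A' * log L := by positivity
        linarith
      linarith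
    exact (log_le_log_iff (by positivity) (by positivity)).1 g2
  calc (I.card : ℝ) * (N : ℝ) ^ (1 - (ρ - 2 * η - 1 / A) + ε / 2) ≤
      (N : ℝ) ^ (ε / 2) * (N : ℝ) ^ (1 - (ρ - 2 * η - 1 / A) + ε / 2) :=
        mul_le_mul_of_nonneg_right h7 (by positivity)
    _ = _ := by rw [← rpow_add hN0]; congr 1; ring

lemma pow_half (A : ℝ) (hA : 0 < A) : ∃ L1 : ℝ, 3 ≤ L1 ∧ ∀ L : ℝ, L1 ≤ L → L ^ A / 2 ≤ (L - 1) ^ A := by
  obtain ⟨q, hq⟩ : ∃ q : ℝ, q = (1 / 2 : ℝ) ^ (1 / A) := ⟨_, rfl⟩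
  have hq0 : 0 < q := by rw [hq]; positivity
  have hq1 : q < 1 := by
    rw [hq]
    exact rpow_lt_one (by norm_num) (by norm_num) (by positivity)
  have hqA : q ^ A = 1 / 2 := by
    rw [hq, ← rpow_mul (by norm_num), one_div_mul_cancel hA.ne', rpow_one]
  refine ⟨max 3 (1 / (1 - q)), le_max_left _ _, fun L hL => ?_⟩
  have h3 : 3 ≤ L := (le_max_left _ _).trans hL
  have h4 : 1 / (1 - q) ≤ L := (le_max_right _ _).trans hL
  rw [div_le_iff₀ (by linarith)] at h4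
  have h5 : q * L ≤ L - 1 := by linarith
  calc L ^ A / 2 = (q * L) ^ A := by rw [mul_rpow hq0.le (by linarith), hqA]; ring
    _ ≤ (L - 1) ^ A := rpow_le_rpow (by positivity) h5 hA.le

/-- the exceptional discriminants -/
def Exc (P : Set ℕ) (A A' δ η : ℝ) : Set ℤ := {d : ℤ | NegFund d ∧
  ∃ y : ℕ, (log |(d : ℝ)|) ^ A ≤ y ∧ (y : ℝ) ≤ (log |(d : ℝ)|) ^ A' ∧ Bad P δ η d y}

theorem count (P : Set ℕ) (hP : ∀ p ∈ P, p.Prime) (ρ c A A' δ η : ℝ) (y0 : ℕ) (hρ1 : ρ ≤ 1)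
    (hc : 0 < c) (hη : 0 ≤ η) (hρ : 0 < ρ - 2 * η) (hA : 2 ≤ (ρ - 2 * η) * A) (hAA : A ≤ A') (hδ : 0 < δ)
    (hδ1 : δ ≤ 1)
    (hlow : ∀ y : ℕ, y0 ≤ y → c * (y : ℝ) ^ ρ / log y ≤ (upTo P y).card) (ε : ℝ) (hε : 0 < ε) :
    ∃ K : ℝ, ∀ X : ℝ, 1 ≤ X → {d : ℤ | d ∈ Exc P A A' δ η ∧ |(d : ℝ)| ≤ X}.Finite ∧
      ({d : ℤ | d ∈ Exc P A A' δ η ∧ |(d : ℝ)| ≤ X}.ncard : ℝ) ≤ K * X ^ ((1 - ρ + 2 * η + 1 / A) + ε) := by
  have hA2 : 2 ≤ A := by nlinarith
  have hA0 : 0 < A := by linarith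
  obtain ⟨N₀, hN₀⟩ := count_Z P hP ρ c A A' δ η (ε / 2) y0 hρ1 hc hη hρ hA hAA hδ hδ1 (by positivity) hlow
  obtain ⟨L1, hL13, hL1⟩ := pow_half A hA0
  have hs : 0 ≤ 1 - (ρ - 2 * η - 1 / A) + ε / 2 := by
    have : 0 < 1 / A := by positivity
    linarith
  obtain ⟨K, hK⟩ := Pool.Agent.Y854.GM.dyadic (Exc P A A' δ η) (Z P A A' δ η)
    (1 - (ρ - 2 * η - 1 / A) + ε / 2) hs
    (max N₀ ⌈exp L1⌉₊) (fun N hN => hN₀ N ((le_max_left _ _).trans hN)) (Z_fin P A A' δ η) (by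
      rintro d ⟨hd, y, hy1, hy2, hb⟩ N hN hdN hNd
      have hexp : exp L1 ≤ N := (Nat.le_ceil _).trans (by exact_mod_cast (le_max_right _ _).trans hN)
      have hN0 : (0 : ℝ) < N := lt_of_lt_of_le (exp_pos _) hexp
      have hLN : L1 ≤ log N := by rw [le_log_iff_exp_le hN0]; exact hexp
      have hdabs : |(d : ℝ)| = (d.natAbs : ℝ) := by
        rw [← Int.cast_abs, Int.abs_eq_natAbs]; simp
      have hd1 : 1 ≤ d.natAbs := by have := hd.1; omega
      have hd1' : (1 : ℝ) ≤ |(d : ℝ)| := by rw [hdabs]; exact_mod_cast hd1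
      have hdN' : |(d : ℝ)| ≤ N := by rw [hdabs]; exact_mod_cast hdN
      have hNd' : (N : ℝ) ≤ 2 * |(d : ℝ)| := by rw [hdabs]; exact_mod_cast hNd.le
      have hlog1 : log N - 1 ≤ log |(d : ℝ)| := by
        have h3 : log N ≤ log (2 * |(d : ℝ)|) := log_le_log hN0 hNd'
        rw [log_mul (by norm_num) (by linarith)] at h3
        have := log_two_lt_d9
        linarith
      have hlog2 : log |(d : ℝ)| ≤ log N := log_le_log (by linarith) hdN'
      have hlog0 : 0 ≤ log |(d : ℝ)| := log_nonneg hd1'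
      refine ⟨hd, hdN, y, ?_, ?_, hb⟩
      · calc (log N) ^ A / 2 ≤ (log N - 1) ^ A := hL1 _ hLN
          _ ≤ (log |(d : ℝ)|) ^ A := rpow_le_rpow (by linarith) hlog1 hA0.le
          _ ≤ y := hy1
      · exact hy2.trans (rpow_le_rpow hlog0 hlog2 (by linarith))) (ε / 2) (by positivity)
  refine ⟨K, fun X hX => ?_⟩
  have h := hK X hX
  rw [show 1 - (ρ - 2 * η - 1 / A) + ε / 2 + ε / 2 = (1 - ρ + 2 * η + 1 / A) + ε by ring] at h
  exact h

end Pool.Agent.Y464.SP
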